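import Pool.Agent.Lib.MP_c68597_al.Core
import Pool.Agent.Lib.MP_c68597_al.Mod

/-!
MP_c68597_al: for every `n ≥ 5` the mapping class group of the sphere with `n + 1` punctures contains
a free abelian subgroup `F` of rank two, generated by two commuting mapping classes with disjoint
supports, such that no rank two subgroup `H` of `F` is rational for any symmetric automatic structure.
-/

namespace Pool.Agent.Results.MP_c68597_al.InvertedFlats

open Pool.Agent.Lib.MP_c68597_al

/-- **Main result.** For `n ≥ 5` there is a subgroup `F` of `Mod(S_{0,n+1})` isomorphic to `ℤ²` such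
that for every symmetric automatic structure `(A, L)` on `Mod(S_{0,n+1})` and every subgroup `H ≤ F`
isomorphic to `ℤ²`, the language of the words of `L` with value in `H` is not regular. -/
theorem result (n : ℕ) (hn : 5 ≤ n) :
    ∃ F : Subgroup (ModSphere n), Nonempty (F ≃* Multiplicative (ℤ × ℤ)) ∧
      ∀ (S : SymmetricAutomaticStructure (ModSphere n)) (H : Subgroup (ModSphere n)),
        H ≤ F → Nonempty (H ≃* Multiplicative (ℤ × ℤ)) →
          ¬ Language.IsRegular ({w | w ∈ S.L ∧ ev w ∈ H} : Language ↥S.A) := by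
  obtain ⟨m, rfl⟩ : ∃ m, n = m + 5 := ⟨n - 5, by omega⟩
  have hinj := flatHom_injective (c1 m) (c2 m) c1_mul_c2 fun k l h => c1_c2_zero h
  refine ⟨(flatHom (c1 m) (c2 m) c1_mul_c2).range, ⟨(MonoidHom.ofInjective hinj).symm⟩, ?_⟩
  intro S H hH he
  obtain ⟨e⟩ := he
  have hr : (H.subtype.comp e.symm.toMonoidHom).range = H := by
    ext x
    constructor
    · rintro ⟨v, rfl⟩
      exact (e.symm v).2
    · intro hx
      exact ⟨e ⟨x, hx⟩, by simp⟩
  have key := no_rational_flat S (H.subtype.comp e.symm.toMonoidHom)
    (H.subtype_injective.comp e.symm.injective) (cs m) (by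
      intro v
      obtain ⟨v', hv'⟩ := hH (e.symm v).2
      have h1 := flatHom_inverted (c1 m) (c2 m) (cs m) c1_mul_c2 c1_cs_c1 c2_cs_c2 v'
      rw [hv'] at h1
      exact h1)
  rw [hr] at key
  exact key

end Pool.Agent.Results.MP_c68597_al.InvertedFlats
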